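import Pool.Agent.Q35.ZC.Stm

set_option autoImplicit false

open Polynomial Pool.Agent.Y720.MZ WeierstrassCurve

namespace Pool.Agent.Q254.ZC

open Pool.Agent.Q35.ZC

theorem third {F : Type} [Field F] [DecidableEq F] {a b c x y X Y x' y' : F}
    (h : (cv a b c).toAffine.Nonsingular x y) (hP : (cv a b c).toAffine.Nonsingular X Y)
    (h' : (cv a b c).toAffine.Nonsingular x' y') (hx : x ≠ X)
    (e : -((.some x y h : Pt a b c) + .some X Y hP) = .some x' y' h') :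
    ∃ m : F, y - Y = m * (x - X) ∧ y' - Y = m * (x' - X) ∧ x + x' + X = m ^ 2 - a := by
  have hx0 : x - X ≠ 0 := sub_ne_zero.2 hx
  obtain ⟨h1, e1⟩ := add_mk h hP hx (ℓ := (y - Y) / (x - X)) (by field_simp)
  set m := (y - Y) / (x - X) with hm
  have hmm : y - Y = m * (x - X) := by
    rw [hm]
    field_simp
  rw [e1] at e
  obtain ⟨h2, e2⟩ := neg_mk h1
  rw [e2] at e
  have e3 := Affine.Point.some.inj e
  obtain ⟨e4, e5⟩ := e3
  refine ⟨m, hmm, ?_, ?_⟩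
  · rw [← e5, ← e4]
    linear_combination hmm
  · rw [← e4]
    ring

theorem dq_eq {F : Type} [Field F] [CharZero F] (θ : F × (Fin 4 → F)) (hθ : θ.1 ≠ 0) (x y m : F)
    (h : y - tY θ = m * (x - tX θ)) :
    dq θ x y = (2 * θ.1 * m - θ.2 0) * (x - tX θ) := by
  have h2 : (2 : F) ≠ 0 := two_ne_zero
  have hY : 2 * θ.1 * tY θ = θ.2 0 * tX θ + 2 * θ.1 ^ 2 * θ.2 2 := by
    unfold tY ys tX
    field_simp
  unfold Pool.Agent.Q35.ZC.dq Df
  linear_combination (2 * θ.1) * h + hY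

theorem Nf_eq {F : Type} [Field F] [CharZero F] (θ : F × (Fin 4 → F)) (hθ : θ.1 ≠ 0) (x : F) :
    Nf θ.1 (θ.2 0) (θ.2 1) x = 4 * θ.1 ^ 2 * (x - tX θ) := by
  have h2 : (2 : F) ≠ 0 := two_ne_zero
  unfold Nf tX xs
  field_simp
  ring

theorem tq_eq {F : Type} [Field F] [CharZero F] (θ : F × (Fin 4 → F)) (hθ : θ.1 ≠ 0) (x y m : F)
    (hx : x ≠ tX θ) (h : y - tY θ = m * (x - tX θ)) :
    tq θ x y = 4 * θ.1 ^ 2 / (2 * θ.1 * m - θ.2 0) := by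
  have hd := dq_eq θ hθ x y m h
  have hx0 : x - tX θ ≠ 0 := sub_ne_zero.2 hx
  unfold tq tf
  rw [Nf_eq θ hθ]
  have hd' : Df θ.1 (θ.2 0) (θ.2 2) x y = (2 * θ.1 * m - θ.2 0) * (x - tX θ) := hd
  rw [hd', mul_div_mul_right _ _ hx0]

theorem inv : S_INV := by
  intro F _ _ _ θ hθ x y x' y' h hP h' hx hx' e
  obtain ⟨m, e1, e2, e3⟩ := third h hP h' hx e
  have d1 := dq_eq θ hθ x y m e1
  have d2 := dq_eq θ hθ x' y' m e2
  have t1 := tq_eq θ hθ x y m hx e1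
  have t2 := tq_eq θ hθ x' y' m hx' e2
  have hx0 : x - tX θ ≠ 0 := sub_ne_zero.2 hx
  have hx0' : x' - tX θ ≠ 0 := sub_ne_zero.2 hx'
  have h2 : (2 : F) ≠ 0 := two_ne_zero
  refine ⟨?_, ?_⟩
  · rw [d1, d2, mul_eq_zero, mul_eq_zero]
    simp [hx0, hx0']
  · intro hd
    rw [d1] at hd
    have hD : 2 * θ.1 * m - θ.2 0 ≠ 0 := left_ne_zero_of_mul hd
    refine ⟨by rw [t1, t2], ?_⟩
    have hX : 4 * θ.1 ^ 2 * tX θ = θ.2 0 ^ 2 - 4 * θ.1 ^ 2 * tA θ := by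
      unfold tX xs tA
      field_simp
    have y1 : yq θ x y = -θ.1 + tq θ x y * (tq θ x y * x - θ.2 0) / (2 * θ.1) := rfl
    have y2 : yq θ x' y' = -θ.1 + tq θ x' y' * (tq θ x' y' * x' - θ.2 0) / (2 * θ.1) := rfl
    rw [y1, y2, t1, t2]
    set D := 2 * θ.1 * m - θ.2 0 with hDdef
    have key : 4 * θ.1 ^ 2 * (x + x') - 2 * θ.2 0 * D - D ^ 2 = 0 := by
      rw [hDdef]
      linear_combination (4 * θ.1 ^ 2) * e3 - hX
    field_simp
    linear_combination 4 * key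

end Pool.Agent.Q254.ZC

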